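import Pool.Agent.Y920.HN.Stm

set_option autoImplicit false

/-! The Haar probability measure of a compact subgroup (S_HAAR). -/

open MeasureTheory Filter Topology

namespace Pool.Agent.Y369.HN

open Pool.Agent.Y920.HN

lemma map_eq {L : Type} [Group L] [TopologicalSpace L] [IsTopologicalGroup L] [CompactSpace L]
    [T2Space L] [MeasurableSpace L] [BorelSpace L] (lam : Measure L) [IsProbabilityMeasure lam]
    [lam.IsHaarMeasure] (f : L → L) (hf : Measurable f)
    (hg : ∀ g : L, ∃ g' : L, ∀ l, f (g' * l) = g * f l) : lam.map f = lam := by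
  have hp : IsProbabilityMeasure (lam.map f) := Measure.isProbabilityMeasure_map hf.aemeasurable
  have hinv : (lam.map f).IsMulLeftInvariant := by
    refine ⟨fun g => ?_⟩
    obtain ⟨g', hg'⟩ := hg g
    rw [Measure.map_map (measurable_const_mul g) hf]
    have e : (fun x => g * x) ∘ f = f ∘ (fun l => g' * l) := by
      funext l
      exact (hg' l).symm
    rw [e, ← Measure.map_map hf (measurable_const_mul g'), map_mul_left_eq_self]
  have h1 := Measure.isMulInvariant_eq_smul_of_compactSpace (lam.map f) lam
  have h2 := congrArg (fun m : Measure L => m Set.univ) h1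
  simp only [Measure.smul_apply, measure_univ] at h2
  have h3 : Measure.haarScalarFactor (lam.map f) lam = 1 := by
    rw [ENNReal.smul_def, smul_eq_mul, mul_one] at h2
    exact_mod_cast h2.symm
  rw [h3, one_smul] at h1
  exact h1

theorem t_HAAR : S_HAAR := by
  intro G _ _ _ _ _ _ K hK
  have hc : CompactSpace K := isCompact_iff_compactSpace.mp hK
  have hKm : MeasurableSet (K : Set G) := hK.measurableSet
  let lam : Measure K := Measure.haarMeasure (⊤ : TopologicalSpace.PositiveCompacts K)
  have hlam : IsProbabilityMeasure lam :=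
    ⟨Measure.haarMeasure_self (K₀ := (⊤ : TopologicalSpace.PositiveCompacts K))⟩
  have hval : Measurable (Subtype.val : K → G) := measurable_subtype_coe
  refine ⟨lam.map Subtype.val, Measure.isProbabilityMeasure_map hval.aemeasurable, ?_, ?_, ?_⟩
  · rw [Measure.map_apply hval hKm.compl]
    have : (Subtype.val : K → G) ⁻¹' (K : Set G)ᶜ = ∅ := by
      ext l
      simp
    rw [this, measure_empty]
  · intro z hz E hE
    have hE' : MeasurableSet {x : G | x * z ∈ E} := (measurable_mul_const z) hE
    rw [Measure.map_apply hval hE', Measure.map_apply hval hE]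
    let f : K → K := fun l => l * ⟨z, hz⟩
    have hf : Measurable f := measurable_mul_const _
    have h1 := map_eq lam f hf (fun g => ⟨g, fun l => mul_assoc g l _⟩)
    have h2 : lam ((Subtype.val : K → G) ⁻¹' E) = (lam.map f) ((Subtype.val : K → G) ⁻¹' E) := by
      rw [h1]
    rw [h2, Measure.map_apply hf (hval hE)]
    rfl
  · intro x hx1 hx2 E hE
    have hE' : MeasurableSet {y : G | x * y * x⁻¹ ∈ E} :=
      ((measurable_mul_const x⁻¹).comp (measurable_const_mul x)) hE
    rw [Measure.map_apply hval hE', Measure.map_apply hval hE]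
    let f : K → K := fun l => ⟨x * l * x⁻¹, hx1 l l.2⟩
    have hf : Measurable f :=
      (((measurable_mul_const x⁻¹).comp (measurable_const_mul x)).comp hval).subtype_mk
    have h1 := map_eq lam f hf (fun g => ⟨⟨x⁻¹ * g * x, hx2 g g.2⟩, fun l => by
      apply Subtype.ext
      change x * (x⁻¹ * g * x * l) * x⁻¹ = g * (x * l * x⁻¹)
      group⟩)
    have h2 : lam ((Subtype.val : K → G) ⁻¹' E) = (lam.map f) ((Subtype.val : K → G) ⁻¹' E) := by
      rw [h1]
    rw [h2, Measure.map_apply hf (hval hE)]
    rfl

end Pool.Agent.Y369.HN
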