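import Pool.Agent.Y165.HN.Stm

set_option autoImplicit false

/-! Project HN, job PER: incomplete sums of a product of two characters -/

namespace Pool.Agent.Y369.HN

open Finset Pool.Agent.Y165.HN

theorem sum_range_cast {M : ℕ} [NeZero M] (h : ZMod M → ℂ) :
    ∑ n ∈ range M, h (n : ZMod M) = ∑ z : ZMod M, h z := by
  refine Finset.sum_nbij' (fun n : ℕ => (n : ZMod M)) (fun z : ZMod M => z.val) ?_ ?_ ?_ ?_ ?_
  · intro n _; exact mem_univ _
  · intro z _; exact mem_range.2 (ZMod.val_lt z)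
  · intro n hn; exact ZMod.val_cast_of_lt (mem_range.1 hn)
  · intro z _; exact ZMod.natCast_zmod_val z
  · intro n _; rfl

theorem full_sum {q q' : ℕ} (hq : q.Prime) (hq' : q'.Prime) (hne : q ≠ q')
    (χ : DirichletCharacter ℂ q) (ψ : DirichletCharacter ℂ q') (hχ : χ ≠ 1) :
    ∑ n ∈ range (q * q'), χ (n : ZMod q) * (starRingEnd ℂ) (ψ (n : ZMod q')) = 0 := by
  have := Fact.mk hq
  have := Fact.mk hq'
  have hco : Nat.Coprime q q' := (Nat.coprime_primes hq hq').2 hne
  have : NeZero (q * q') := ⟨Nat.mul_ne_zero hq.ne_zero hq'.ne_zero⟩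
  let e := ZMod.chineseRemainder hco
  let G : ZMod q × ZMod q' → ℂ := fun p => χ p.1 * (starRingEnd ℂ) (ψ p.2)
  have h1 : ∀ n : ℕ, χ (n : ZMod q) * (starRingEnd ℂ) (ψ (n : ZMod q')) =
      G (e (n : ZMod (q * q'))) := by
    intro n
    have : e (n : ZMod (q * q')) = ((n : ZMod q), (n : ZMod q')) := by
      rw [map_natCast]; rfl
    rw [this]
  have h0 : ∑ z : ZMod (q * q'), G (e z) = ∑ p : ZMod q × ZMod q', G p :=
    Equiv.sum_comp e.toEquiv G
  rw [Finset.sum_congr rfl fun n _ => h1 n, sum_range_cast (fun z => G (e z)), h0,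
    Fintype.sum_prod_type]
  have h2 : ∀ x : ZMod q, ∑ y : ZMod q', G (x, y) =
      χ x * ∑ y : ZMod q', (starRingEnd ℂ) (ψ y) := by
    intro x; rw [Finset.mul_sum]
  rw [Finset.sum_congr rfl fun x _ => h2 x, ← Finset.sum_mul,
    MulChar.sum_eq_zero_of_ne_one hχ, zero_mul]

theorem norm_le_one {q : ℕ} (χ : DirichletCharacter ℂ q) (a : ZMod q) : ‖χ a‖ ≤ 1 :=
  DirichletCharacter.norm_le_one χ a

theorem t_PER : PER := by
  intro q q' hq hq' hne χ ψ hχ N
  have hper : ∀ n : ℕ, χ ((q * q' + n : ℕ) : ZMod q) *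
      (starRingEnd ℂ) (ψ ((q * q' + n : ℕ) : ZMod q')) =
      χ (n : ZMod q) * (starRingEnd ℂ) (ψ (n : ZMod q')) := by
    intro n
    have e1 : ((q * q' + n : ℕ) : ZMod q) = (n : ZMod q) := by
      push_cast; rw [ZMod.natCast_self, zero_mul, zero_add]
    have e2 : ((q * q' + n : ℕ) : ZMod q') = (n : ZMod q') := by
      push_cast; rw [ZMod.natCast_self, mul_zero, zero_add]
    rw [e1, e2]
  induction N using Nat.strong_induction_on with
  | _ N ih =>
    rcases Nat.lt_or_ge N (q * q') with hN | hN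
    · have h3 : ‖∑ n ∈ range N, χ (n : ZMod q) * (starRingEnd ℂ) (ψ (n : ZMod q'))‖ ≤
          ∑ n ∈ range N, (1 : ℝ) := by
        refine norm_sum_le_of_le _ fun n _ => ?_
        rw [norm_mul, RCLike.norm_conj]
        calc ‖χ (n : ZMod q)‖ * ‖ψ (n : ZMod q')‖ ≤ 1 * 1 :=
              mul_le_mul (norm_le_one χ _) (norm_le_one ψ _) (norm_nonneg _) zero_le_one
          _ = 1 := one_mul 1
      rw [sum_const, card_range, nsmul_eq_mul, mul_one] at h3
      have h4 : (N : ℝ) ≤ (q : ℝ) * q' := by exact_mod_cast hN.le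
      exact h3.trans h4
    · obtain ⟨m, rfl⟩ := Nat.exists_eq_add_of_le hN
      rw [Finset.sum_range_add, full_sum hq hq' hne χ ψ hχ, zero_add,
        Finset.sum_congr rfl fun n _ => hper n]
      refine ih m ?_
      have : 0 < q * q' := Nat.mul_pos hq.pos hq'.pos
      omega

end Pool.Agent.Y369.HN
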